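import Pool.Agent.L5helper98.ID.Defs

/-!
# UP4: upper bound for the fourth moment
-/

set_option autoImplicit false

open MeasureTheory ProbabilityTheory Filter Topology Set
open scoped ENNReal

namespace Pool.Agent.L5helper4.ID

open Pool.Agent.L5helper98.ID

noncomputable section

theorem ee_meas {F : ℝ → ℝ} (hF : Measurable F) : Measurable (fun p : ℝ × ℝ => ee F p.1 p.2) := by
  unfold ee
  exact ENNReal.measurable_ofReal.comp
    (Real.measurable_exp.comp (hF.comp (measurable_fst.sub measurable_snd)))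

section abs

variable {ν : Measure ℝ} [SFinite ν] {K G : ℝ → ℝ → ℝ≥0∞} {J B : ℝ≥0∞}

theorem sec {K : ℝ → ℝ → ℝ≥0∞} (hK : Measurable (fun p : ℝ × ℝ => K p.1 p.2)) (x : ℝ) :
    Measurable (K x) := hK.comp measurable_prodMk_left

theorem transfer (hK : Measurable (fun p : ℝ × ℝ => K p.1 p.2)) (hs : ∀ x y, K x y = K y x)
    (hJ : ∀ x, ∫⁻ y, K x y ∂ν ≤ J) {h : ℝ → ℝ≥0∞} (hh : Measurable h) :
    ∫⁻ x, ∫⁻ y, K x y * h y ∂ν ∂ν ≤ J * ∫⁻ y, h y ∂ν := by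
  have hm : AEMeasurable (Function.uncurry fun x y => K x y * h y) (ν.prod ν) :=
    (hK.mul (hh.comp measurable_snd)).aemeasurable
  rw [lintegral_lintegral_swap hm, ← lintegral_const_mul _ hh]
  refine lintegral_mono fun y => ?_
  have h1 : ∀ x, K x y * h y = K y x * h y := fun x => by rw [hs]
  simp only [h1]
  rw [lintegral_mul_const _ (sec hK y)]
  exact mul_le_mul_left (hJ y) _

theorem prod3 {A B C : ℝ → ℝ≥0∞} (hA : Measurable A) (hB : Measurable B) (hC : Measurable C) :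
    ∫⁻ y, ∫⁻ z, ∫⁻ w, A y * B z * C w ∂ν ∂ν ∂ν =
      (∫⁻ y, A y ∂ν) * (∫⁻ z, B z ∂ν) * (∫⁻ w, C w ∂ν) := by
  have h1 : ∀ y z, ∫⁻ w, A y * B z * C w ∂ν = A y * (B z * ∫⁻ w, C w ∂ν) := by
    intro y z
    rw [lintegral_const_mul _ hC, mul_assoc]
  simp only [h1]
  have h2 : ∀ y, ∫⁻ z, A y * (B z * ∫⁻ w, C w ∂ν) ∂ν = A y * ((∫⁻ z, B z ∂ν) * ∫⁻ w, C w ∂ν) := by
    intro y
    rw [lintegral_const_mul _ (hB.mul_const _), lintegral_mul_const _ hB]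
  simp only [h2]
  rw [lintegral_mul_const _ hA, mul_assoc]

theorem prod2 {A B : ℝ → ℝ≥0∞} (hA : Measurable A) (hB : Measurable B) :
    ∫⁻ y, ∫⁻ z, A y * B z ∂ν ∂ν = (∫⁻ y, A y ∂ν) * (∫⁻ z, B z ∂ν) := by
  have h1 : ∀ y, ∫⁻ z, A y * B z ∂ν = A y * (∫⁻ z, B z ∂ν) := by
    intro y
    rw [lintegral_const_mul _ hB]
  simp only [h1]
  rw [lintegral_mul_const _ hA]

theorem g_meas (hG : Measurable (fun p : ℝ × ℝ => G p.1 p.2)) :
    Measurable (fun x => ∫⁻ y, G x y ∂ν) := hG.lintegral_prod_right'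

theorem cx1 (hK : Measurable (fun p : ℝ × ℝ => K p.1 p.2))
    (hG : Measurable (fun p : ℝ × ℝ => G p.1 p.2)) (hJ : ∀ x, ∫⁻ y, K x y ∂ν ≤ J)
    (hB : ∫⁻ x, ∫⁻ y, G x y ∂ν ∂ν ≤ B) :
    ∫⁻ x, ∫⁻ y, ∫⁻ z, ∫⁻ w, G x y * K x z * K x w ∂ν ∂ν ∂ν ∂ν ≤ B * (J * J) := by
  have h1 : ∀ x, ∫⁻ y, ∫⁻ z, ∫⁻ w, G x y * K x z * K x w ∂ν ∂ν ∂ν ≤
      (∫⁻ y, G x y ∂ν) * (J * J) := by
    intro x
    rw [prod3 (sec hG x) (sec hK x) (sec hK x), mul_assoc]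
    exact mul_le_mul_right (mul_le_mul' (hJ x) (hJ x)) _
  refine (lintegral_mono h1).trans ?_
  rw [lintegral_mul_const _ (g_meas hG)]
  exact mul_le_mul_left hB _

theorem cx2 (hK : Measurable (fun p : ℝ × ℝ => K p.1 p.2))
    (hG : Measurable (fun p : ℝ × ℝ => G p.1 p.2)) (hJ : ∀ x, ∫⁻ y, K x y ∂ν ≤ J)
    (hB : ∫⁻ x, ∫⁻ y, G x y ∂ν ∂ν ≤ B) :
    ∫⁻ x, ∫⁻ y, ∫⁻ z, ∫⁻ w, K x y * G x z * K x w ∂ν ∂ν ∂ν ∂ν ≤ B * (J * J) := by
  have h1 : ∀ x, ∫⁻ y, ∫⁻ z, ∫⁻ w, K x y * G x z * K x w ∂ν ∂ν ∂ν ≤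
      (∫⁻ y, G x y ∂ν) * (J * J) := by
    intro x
    rw [prod3 (sec hK x) (sec hG x) (sec hK x), mul_comm (∫⁻ y, K x y ∂ν), mul_assoc]
    exact mul_le_mul_right (mul_le_mul' (hJ x) (hJ x)) _
  refine (lintegral_mono h1).trans ?_
  rw [lintegral_mul_const _ (g_meas hG)]
  exact mul_le_mul_left hB _

theorem cx3 (hK : Measurable (fun p : ℝ × ℝ => K p.1 p.2))
    (hG : Measurable (fun p : ℝ × ℝ => G p.1 p.2)) (hJ : ∀ x, ∫⁻ y, K x y ∂ν ≤ J)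
    (hB : ∫⁻ x, ∫⁻ y, G x y ∂ν ∂ν ≤ B) :
    ∫⁻ x, ∫⁻ y, ∫⁻ z, ∫⁻ w, K x y * K x z * G x w ∂ν ∂ν ∂ν ∂ν ≤ B * (J * J) := by
  have h1 : ∀ x, ∫⁻ y, ∫⁻ z, ∫⁻ w, K x y * K x z * G x w ∂ν ∂ν ∂ν ≤
      (∫⁻ y, G x y ∂ν) * (J * J) := by
    intro x
    rw [prod3 (sec hK x) (sec hK x) (sec hG x), mul_comm _ (∫⁻ w, G x w ∂ν)]
    exact mul_le_mul_right (mul_le_mul' (hJ x) (hJ x)) _
  refine (lintegral_mono h1).trans ?_
  rw [lintegral_mul_const _ (g_meas hG)]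
  exact mul_le_mul_left hB _

theorem gJ (hG : Measurable (fun p : ℝ × ℝ => G p.1 p.2))
    (hB : ∫⁻ x, ∫⁻ y, G x y ∂ν ∂ν ≤ B) {k : ℝ → ℝ≥0∞} (hk : ∀ y, k y ≤ J) :
    J * ∫⁻ y, (∫⁻ z, G y z ∂ν) * k y ∂ν ≤ B * (J * J) := by
  have h1 : ∫⁻ y, (∫⁻ z, G y z ∂ν) * k y ∂ν ≤ B * J := by
    refine (lintegral_mono fun y => mul_le_mul_right (hk y) _).trans ?_
    rw [lintegral_mul_const _ (g_meas hG)]
    exact mul_le_mul_left hB _
  calc J * ∫⁻ y, (∫⁻ z, G y z ∂ν) * k y ∂ν ≤ J * (B * J) := mul_le_mul_right h1 _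
    _ = B * (J * J) := by ring

theorem cy1 (hK : Measurable (fun p : ℝ × ℝ => K p.1 p.2)) (hs : ∀ x y, K x y = K y x)
    (hG : Measurable (fun p : ℝ × ℝ => G p.1 p.2)) (hJ : ∀ x, ∫⁻ y, K x y ∂ν ≤ J)
    (hB : ∫⁻ x, ∫⁻ y, G x y ∂ν ∂ν ≤ B) :
    ∫⁻ x, ∫⁻ y, ∫⁻ z, ∫⁻ w, K x y * (G y z * K y w) ∂ν ∂ν ∂ν ∂ν ≤ B * (J * J) := by
  have h1 : ∀ x y, ∫⁻ z, ∫⁻ w, K x y * (G y z * K y w) ∂ν ∂ν =
      K x y * ((∫⁻ z, G y z ∂ν) * ∫⁻ w, K y w ∂ν) := by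
    intro x y
    have e1 : ∀ z, ∫⁻ w, K x y * (G y z * K y w) ∂ν = K x y * (G y z * ∫⁻ w, K y w ∂ν) := by
      intro z
      rw [lintegral_const_mul _ ((sec hK y).const_mul _), lintegral_const_mul _ (sec hK y)]
    simp only [e1]
    rw [lintegral_const_mul _ ((sec hG y).mul_const _), lintegral_mul_const _ (sec hG y)]
  simp only [h1]
  refine (transfer hK hs hJ ((g_meas hG).mul (g_meas hK))).trans ?_
  exact gJ hG hB hJ

theorem cy2 (hK : Measurable (fun p : ℝ × ℝ => K p.1 p.2)) (hs : ∀ x y, K x y = K y x)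
    (hG : Measurable (fun p : ℝ × ℝ => G p.1 p.2)) (hJ : ∀ x, ∫⁻ y, K x y ∂ν ≤ J)
    (hB : ∫⁻ x, ∫⁻ y, G x y ∂ν ∂ν ≤ B) :
    ∫⁻ x, ∫⁻ y, ∫⁻ z, ∫⁻ w, K x y * (K y z * G y w) ∂ν ∂ν ∂ν ∂ν ≤ B * (J * J) := by
  have h1 : ∀ x y, ∫⁻ z, ∫⁻ w, K x y * (K y z * G y w) ∂ν ∂ν =
      K x y * ((∫⁻ z, G y z ∂ν) * ∫⁻ w, K y w ∂ν) := by
    intro x y
    have e1 : ∀ z, ∫⁻ w, K x y * (K y z * G y w) ∂ν = K x y * (K y z * ∫⁻ w, G y w ∂ν) := by
      intro z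
      rw [lintegral_const_mul _ ((sec hG y).const_mul _), lintegral_const_mul _ (sec hG y)]
    simp only [e1]
    rw [lintegral_const_mul _ ((sec hK y).mul_const _), lintegral_mul_const _ (sec hK y), mul_comm (∫⁻ w, K y w ∂ν)]
  simp only [h1]
  refine (transfer hK hs hJ ((g_meas hG).mul (g_meas hK))).trans ?_
  exact gJ hG hB hJ

theorem cz (hK : Measurable (fun p : ℝ × ℝ => K p.1 p.2)) (hs : ∀ x y, K x y = K y x)
    (hG : Measurable (fun p : ℝ × ℝ => G p.1 p.2)) (hJ : ∀ x, ∫⁻ y, K x y ∂ν ≤ J)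
    (hB : ∫⁻ x, ∫⁻ y, G x y ∂ν ∂ν ≤ B) :
    ∫⁻ x, ∫⁻ y, ∫⁻ z, ∫⁻ w, K y z * (K x z * G z w) ∂ν ∂ν ∂ν ∂ν ≤ B * (J * J) := by
  have h1 : ∀ x y z, ∫⁻ w, K y z * (K x z * G z w) ∂ν = K y z * (K x z * ∫⁻ w, G z w ∂ν) := by
    intro x y z
    rw [lintegral_const_mul _ ((sec hG z).const_mul _), lintegral_const_mul _ (sec hG z)]
  simp only [h1]
  have h2 : ∀ x, ∫⁻ y, ∫⁻ z, K y z * (K x z * ∫⁻ w, G z w ∂ν) ∂ν ∂ν ≤
      J * ∫⁻ z, K x z * ∫⁻ w, G z w ∂ν ∂ν := fun x =>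
    transfer hK hs hJ ((sec hK x).mul (g_meas hG))
  refine (lintegral_mono h2).trans ?_
  have h3 : Measurable fun x => ∫⁻ z, K x z * ∫⁻ w, G z w ∂ν ∂ν :=
    (hK.mul ((g_meas hG).comp measurable_snd)).lintegral_prod_right'
  rw [lintegral_const_mul _ h3]
  calc J * ∫⁻ x, ∫⁻ z, K x z * ∫⁻ w, G z w ∂ν ∂ν ∂ν ≤ J * (J * ∫⁻ z, ∫⁻ w, G z w ∂ν ∂ν) :=
        mul_le_mul_right (transfer hK hs hJ (g_meas hG)) _
    _ ≤ J * (J * B) := mul_le_mul_right (mul_le_mul_right hB _) _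
    _ = B * (J * J) := by ring

theorem I4 {F : ℝ × ℝ × ℝ × ℝ → ℝ≥0∞} (hF : Measurable F) :
    ∫⁻ p, F p ∂(ν.prod (ν.prod (ν.prod ν))) =
      ∫⁻ x, ∫⁻ y, ∫⁻ z, ∫⁻ w, F (x, y, z, w) ∂ν ∂ν ∂ν ∂ν := by
  rw [lintegral_prod _ hF.aemeasurable]
  refine lintegral_congr fun x => ?_
  have h1 : Measurable fun p : ℝ × ℝ × ℝ => F (x, p) := hF.comp measurable_prodMk_left
  rw [lintegral_prod _ h1.aemeasurable]
  refine lintegral_congr fun y => ?_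
  have h2 : Measurable fun p : ℝ × ℝ => F (x, y, p) := h1.comp measurable_prodMk_left
  rw [lintegral_prod _ h2.aemeasurable]

end abs

theorem amgm (a₁ a₂ a₃ a₄ a₅ a₆ : ℝ) :
    6 * Real.exp (a₁ + a₂ + a₃ + a₄ + a₅ + a₆) ≤ Real.exp (6 * a₁) + Real.exp (6 * a₂) +
      Real.exp (6 * a₃) + Real.exp (6 * a₄) + Real.exp (6 * a₅) + Real.exp (6 * a₆) := by
  set m := a₁ + a₂ + a₃ + a₄ + a₅ + a₆ with hm
  have key : ∀ a : ℝ, Real.exp m * (6 * a - m + 1) ≤ Real.exp (6 * a) := by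
    intro a
    have h1 : Real.exp (6 * a) = Real.exp m * Real.exp (6 * a - m) := by
      rw [← Real.exp_add]
      congr 1
      ring
    rw [h1]
    exact mul_le_mul_of_nonneg_left (Real.add_one_le_exp _) (Real.exp_pos _).le
  have e1 : Real.exp m * (6 * a₁ - m + 1) + Real.exp m * (6 * a₂ - m + 1) +
      Real.exp m * (6 * a₃ - m + 1) + Real.exp m * (6 * a₄ - m + 1) +
      Real.exp m * (6 * a₅ - m + 1) + Real.exp m * (6 * a₆ - m + 1) = 6 * Real.exp m := by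
    rw [hm]
    ring
  linarith [key a₁, key a₂, key a₃, key a₄, key a₅, key a₆]

theorem UP4_b_holds (hPER : St_PER) (hUP2 : St_UP2) : St_UP4 := by
  intro l c κ η hl h0 hev hη hc hint
  have hκ : 0 ≤ κ := (abs_nonneg c).trans hc
  set K : ℝ → ℝ → ℝ≥0∞ := ee (fun t => c * Real.cos t) with hKdef
  set G : ℝ → ℝ → ℝ≥0∞ := ee (fun t => 6 * l t + c * Real.cos t) with hGdef
  have hcm : Measurable fun t : ℝ => c * Real.cos t := Real.measurable_cos.const_mul _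
  have h6m : Measurable fun t : ℝ => 6 * l t := hl.const_mul _
  have hKm : Measurable (fun p : ℝ × ℝ => K p.1 p.2) := ee_meas hcm
  have hGm : Measurable (fun p : ℝ × ℝ => G p.1 p.2) := ee_meas (h6m.add hcm)
  have hEm : Measurable (fun p : ℝ × ℝ => ee (fun t => l t + c * Real.cos t) p.1 p.2) :=
    ee_meas (hl.add hcm)
  have hKs : ∀ x y, K x y = K y x := by
    intro x y
    simp only [hKdef, ee]
    rw [show x - y = -(y - x) by ring, Real.cos_neg]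
  have hJ : ∀ x, ∫⁻ y in D, K x y ≤ ENNReal.ofReal (I κ) := hPER c κ hc
  have hB : ∫⁻ x in D, ∫⁻ y in D, G x y ≤
      ENNReal.ofReal (2 * Real.pi * I κ + 2 * Real.pi * Real.exp κ * η) :=
    hUP2 (fun t => 6 * l t) c κ η h6m (fun x => by have := h0 x; positivity)
      (fun x => by simp only [hev]) hη hc hint
  set J := ENNReal.ofReal (I κ) with hJdef
  set B := ENNReal.ofReal (2 * Real.pi * I κ + 2 * Real.pi * Real.exp κ * η) with hBdef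
  set ν : Measure ℝ := volume.restrict D with hν
  have hb : ∀ t, c * Real.cos t ≤ κ := by
    intro t
    calc c * Real.cos t ≤ |c * Real.cos t| := le_abs_self _
      _ = |c| * |Real.cos t| := abs_mul _ _
      _ ≤ |c| * 1 := mul_le_mul_of_nonneg_left (Real.abs_cos_le_one t) (abs_nonneg _)
      _ ≤ κ := by rw [mul_one]; exact hc
  -- the pointwise bound
  have pw : ∀ x y z w : ℝ, 6 * (ee (fun t => l t + c * Real.cos t) x y *
      ee (fun t => l t + c * Real.cos t) x z * ee (fun t => l t + c * Real.cos t) x w *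
      ee (fun t => l t + c * Real.cos t) y z * ee (fun t => l t + c * Real.cos t) y w *
      ee (fun t => l t + c * Real.cos t) z w) ≤
      ENNReal.ofReal (Real.exp (3 * κ)) * (G x y * K x z * K x w + K x y * G x z * K x w +
        K x y * K x z * G x w + K x y * (G y z * K y w) + K x y * (K y z * G y w) +
        K y z * (K x z * G z w)) := by
    intro x y z w
    simp only [hKdef, hGdef, ee]
    have e6 : (6 : ℝ≥0∞) = ENNReal.ofReal 6 := by norm_num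
    rw [e6]
    have hp := fun t : ℝ => (Real.exp_pos t).le
    simp only [← ENNReal.ofReal_mul (hp _), ← Real.exp_add,
      ← ENNReal.ofReal_mul (show (0 : ℝ) ≤ 6 by norm_num)]
    rw [← ENNReal.ofReal_add (hp _) (hp _), ← ENNReal.ofReal_add (add_nonneg (hp _) (hp _)) (hp _),
      ← ENNReal.ofReal_add (add_nonneg (add_nonneg (hp _) (hp _)) (hp _)) (hp _),
      ← ENNReal.ofReal_add (add_nonneg (add_nonneg (add_nonneg (hp _) (hp _)) (hp _)) (hp _)) (hp _),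
      ← ENNReal.ofReal_add (add_nonneg (add_nonneg (add_nonneg (add_nonneg (hp _) (hp _)) (hp _))
        (hp _)) (hp _)) (hp _),
      ← ENNReal.ofReal_mul (hp _)]
    refine ENNReal.ofReal_le_ofReal ?_
    have h1 := amgm (l (x - y)) (l (x - z)) (l (x - w)) (l (y - z)) (l (y - w)) (l (z - w))
    have b1 := hb (x - y)
    have b2 := hb (x - z)
    have b3 := hb (x - w)
    have b4 := hb (y - z)
    have b5 := hb (y - w)
    have b6 := hb (z - w)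
    set u1 := c * Real.cos (x - y)
    set u2 := c * Real.cos (x - z)
    set u3 := c * Real.cos (x - w)
    set u4 := c * Real.cos (y - z)
    set u5 := c * Real.cos (y - w)
    set u6 := c * Real.cos (z - w)
    set a1 := l (x - y)
    set a2 := l (x - z)
    set a3 := l (x - w)
    set a4 := l (y - z)
    set a5 := l (y - w)
    set a6 := l (z - w)
    have h2 : 6 * Real.exp (a1 + u1 + (a2 + u2) + (a3 + u3) + (a4 + u4) + (a5 + u5) + (a6 + u6)) =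
        (6 * Real.exp (a1 + a2 + a3 + a4 + a5 + a6)) *
          Real.exp (u1 + u2 + u3 + u4 + u5 + u6) := by
      rw [mul_assoc, ← Real.exp_add]
      congr 2
      ring
    rw [h2]
    refine (mul_le_mul_of_nonneg_right h1 (hp _)).trans ?_
    simp only [add_mul, mul_add, ← Real.exp_add]
    have m1 : Real.exp (6 * a1 + (u1 + u2 + u3 + u4 + u5 + u6)) ≤
        Real.exp (3 * κ + (6 * a1 + u1 + u2 + u3)) := Real.exp_le_exp.2 (by linarith)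
    have m2 : Real.exp (6 * a2 + (u1 + u2 + u3 + u4 + u5 + u6)) ≤
        Real.exp (3 * κ + (u1 + (6 * a2 + u2) + u3)) := Real.exp_le_exp.2 (by linarith)
    have m3 : Real.exp (6 * a3 + (u1 + u2 + u3 + u4 + u5 + u6)) ≤
        Real.exp (3 * κ + (u1 + u2 + (6 * a3 + u3))) := Real.exp_le_exp.2 (by linarith)
    have m4 : Real.exp (6 * a4 + (u1 + u2 + u3 + u4 + u5 + u6)) ≤
        Real.exp (3 * κ + (u1 + (6 * a4 + u4 + u5))) := Real.exp_le_exp.2 (by linarith)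
    have m5 : Real.exp (6 * a5 + (u1 + u2 + u3 + u4 + u5 + u6)) ≤
        Real.exp (3 * κ + (u1 + (u4 + (6 * a5 + u5)))) := Real.exp_le_exp.2 (by linarith)
    have m6 : Real.exp (6 * a6 + (u1 + u2 + u3 + u4 + u5 + u6)) ≤
        Real.exp (3 * κ + (u4 + (u2 + (6 * a6 + u6)))) := Real.exp_le_exp.2 (by linarith)
    linarith
  -- measurability on the product
  have q1 : Measurable fun p : ℝ × ℝ × ℝ × ℝ => p.1 := measurable_fst
  have q2 : Measurable fun p : ℝ × ℝ × ℝ × ℝ => p.2.1 := measurable_snd.fst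
  have q3 : Measurable fun p : ℝ × ℝ × ℝ × ℝ => p.2.2.1 := measurable_snd.snd.fst
  have q4 : Measurable fun p : ℝ × ℝ × ℝ × ℝ => p.2.2.2 := measurable_snd.snd.snd
  have mm : ∀ {H : ℝ → ℝ → ℝ≥0∞} {s t : ℝ × ℝ × ℝ × ℝ → ℝ},
      Measurable (fun p : ℝ × ℝ => H p.1 p.2) → Measurable s → Measurable t →
      Measurable fun p => H (s p) (t p) := fun hH hs ht => hH.comp (hs.prodMk ht)
  set T1 : ℝ × ℝ × ℝ × ℝ → ℝ≥0∞ := fun p => G p.1 p.2.1 * K p.1 p.2.2.1 * K p.1 p.2.2.2 with hT1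
  set T2 : ℝ × ℝ × ℝ × ℝ → ℝ≥0∞ := fun p => K p.1 p.2.1 * G p.1 p.2.2.1 * K p.1 p.2.2.2 with hT2
  set T3 : ℝ × ℝ × ℝ × ℝ → ℝ≥0∞ := fun p => K p.1 p.2.1 * K p.1 p.2.2.1 * G p.1 p.2.2.2 with hT3
  set T4 : ℝ × ℝ × ℝ × ℝ → ℝ≥0∞ := fun p =>
    K p.1 p.2.1 * (G p.2.1 p.2.2.1 * K p.2.1 p.2.2.2) with hT4
  set T5 : ℝ × ℝ × ℝ × ℝ → ℝ≥0∞ := fun p =>
    K p.1 p.2.1 * (K p.2.1 p.2.2.1 * G p.2.1 p.2.2.2) with hT5
  set T6 : ℝ × ℝ × ℝ × ℝ → ℝ≥0∞ := fun p =>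
    K p.2.1 p.2.2.1 * (K p.1 p.2.2.1 * G p.2.2.1 p.2.2.2) with hT6
  have M1 : Measurable T1 := ((mm hGm q1 q2).mul (mm hKm q1 q3)).mul (mm hKm q1 q4)
  have M2 : Measurable T2 := ((mm hKm q1 q2).mul (mm hGm q1 q3)).mul (mm hKm q1 q4)
  have M3 : Measurable T3 := ((mm hKm q1 q2).mul (mm hKm q1 q3)).mul (mm hGm q1 q4)
  have M4 : Measurable T4 := (mm hKm q1 q2).mul ((mm hGm q2 q3).mul (mm hKm q2 q4))
  have M5 : Measurable T5 := (mm hKm q1 q2).mul ((mm hKm q2 q3).mul (mm hGm q2 q4))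
  have M6 : Measurable T6 := (mm hKm q2 q3).mul ((mm hKm q1 q3).mul (mm hGm q3 q4))
  set F : ℝ × ℝ × ℝ × ℝ → ℝ≥0∞ := fun p =>
    ee (fun t => l t + c * Real.cos t) p.1 p.2.1 * ee (fun t => l t + c * Real.cos t) p.1 p.2.2.1 *
    ee (fun t => l t + c * Real.cos t) p.1 p.2.2.2 * ee (fun t => l t + c * Real.cos t) p.2.1 p.2.2.1 *
    ee (fun t => l t + c * Real.cos t) p.2.1 p.2.2.2 *
    ee (fun t => l t + c * Real.cos t) p.2.2.1 p.2.2.2 with hF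
  have MF : Measurable F := (((((mm hEm q1 q2).mul (mm hEm q1 q3)).mul (mm hEm q1 q4)).mul
    (mm hEm q2 q3)).mul (mm hEm q2 q4)).mul (mm hEm q3 q4)
  have i1 : ∫⁻ p, T1 p ∂(ν.prod (ν.prod (ν.prod ν))) ≤ B * (J * J) := by
    rw [I4 M1]; exact cx1 hKm hGm hJ hB
  have i2 : ∫⁻ p, T2 p ∂(ν.prod (ν.prod (ν.prod ν))) ≤ B * (J * J) := by
    rw [I4 M2]; exact cx2 hKm hGm hJ hB
  have i3 : ∫⁻ p, T3 p ∂(ν.prod (ν.prod (ν.prod ν))) ≤ B * (J * J) := by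
    rw [I4 M3]; exact cx3 hKm hGm hJ hB
  have i4 : ∫⁻ p, T4 p ∂(ν.prod (ν.prod (ν.prod ν))) ≤ B * (J * J) := by
    rw [I4 M4]; exact cy1 hKm hKs hGm hJ hB
  have i5 : ∫⁻ p, T5 p ∂(ν.prod (ν.prod (ν.prod ν))) ≤ B * (J * J) := by
    rw [I4 M5]; exact cy2 hKm hKs hGm hJ hB
  have i6 : ∫⁻ p, T6 p ∂(ν.prod (ν.prod (ν.prod ν))) ≤ B * (J * J) := by
    rw [I4 M6]; exact cz hKm hKs hGm hJ hB
  have main : 6 * ∫⁻ p, F p ∂(ν.prod (ν.prod (ν.prod ν))) ≤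
      6 * (ENNReal.ofReal (Real.exp (3 * κ)) * (B * (J * J))) := by
    calc 6 * ∫⁻ p, F p ∂(ν.prod (ν.prod (ν.prod ν)))
        = ∫⁻ p, 6 * F p ∂(ν.prod (ν.prod (ν.prod ν))) := (lintegral_const_mul _ MF).symm
      _ ≤ ∫⁻ p, ENNReal.ofReal (Real.exp (3 * κ)) * (T1 p + T2 p + T3 p + T4 p + T5 p + T6 p)
            ∂(ν.prod (ν.prod (ν.prod ν))) := lintegral_mono fun p => pw p.1 p.2.1 p.2.2.1 p.2.2.2
      _ = ENNReal.ofReal (Real.exp (3 * κ)) *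
            (∫⁻ p, T1 p ∂(ν.prod (ν.prod (ν.prod ν))) + ∫⁻ p, T2 p ∂(ν.prod (ν.prod (ν.prod ν))) +
              ∫⁻ p, T3 p ∂(ν.prod (ν.prod (ν.prod ν))) + ∫⁻ p, T4 p ∂(ν.prod (ν.prod (ν.prod ν))) +
              ∫⁻ p, T5 p ∂(ν.prod (ν.prod (ν.prod ν))) +
              ∫⁻ p, T6 p ∂(ν.prod (ν.prod (ν.prod ν)))) := by
          have MS : Measurable fun p => T1 p + T2 p + T3 p + T4 p + T5 p + T6 p :=
            ((((M1.add M2).add M3).add M4).add M5).add M6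
          rw [lintegral_const_mul _ MS, lintegral_add_right _ M6, lintegral_add_right _ M5, lintegral_add_right _ M4,
            lintegral_add_right _ M3, lintegral_add_right _ M2]
      _ ≤ ENNReal.ofReal (Real.exp (3 * κ)) * (B * (J * J) + B * (J * J) + B * (J * J) +
            B * (J * J) + B * (J * J) + B * (J * J)) := by gcongr
      _ = 6 * (ENNReal.ofReal (Real.exp (3 * κ)) * (B * (J * J))) := by ring
  have main2 := (ENNReal.mul_le_mul_iff_right (show (6 : ℝ≥0∞) ≠ 0 by norm_num)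
    (show (6 : ℝ≥0∞) ≠ ⊤ by norm_num)).1 main
  rw [I4 MF] at main2
  refine main2.trans (le_of_eq ?_)
  have hI : 0 ≤ I κ := by
    unfold I
    exact integral_nonneg fun x => (Real.exp_pos _).le
  rw [ENNReal.ofReal_mul (mul_nonneg (Real.exp_pos _).le (pow_nonneg hI 2)),
    ENNReal.ofReal_mul (Real.exp_pos _).le, ENNReal.ofReal_pow hI]
  ring

end

end Pool.Agent.L5helper4.ID
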